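import Mathlib
import Pool.Agent.Q217.TT.Indep

/-!
# Weights of the values of the harmonic sums: an inequality for all words
-/

set_option autoImplicit false

namespace Pool.Agent.U623.HC

open Pool.Agent.H447R2.MZ (H H_nil H_cons H_cons_zero H_cons_succ H_nonneg)
open Pool.Agent.Q217.TT (ep ep_nil ep_self ep_succ ep_left ep_nonneg)

lemma ep_self' {p : List ℕ} (hp : p ≠ []) (M : ℕ) : ep p M M = 0 := by
  cases p with
  | nil => exact absurd rfl hp
  | cons s p => exact ep_self s p M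

/-- the numerical inequality -/
lemma key {m : ℝ} (hm : 0 < m) {ρ E0 E1 : ℝ} (hρ : 0 ≤ ρ) (hE1 : 0 ≤ E1) (b : ℕ)
    (h : (m + 1 + ρ) * E1 ≤ (m + 1) * E0) :
    (m + 1 + ρ + b) * (((m + 1) ^ (b + 1))⁻¹ * E1) ≤ m * ((m ^ (b + 1))⁻¹ * E0) := by
  have h1 : 1 + (b : ℝ) * (1 / m) ≤ (1 + 1 / m) ^ b :=
    one_add_mul_le_pow (by have : 0 < 1 / m := by positivity
                           linarith) b
  have h2 : (1 + 1 / m) ^ b * m ^ b = (m + 1) ^ b := by
    rw [← mul_pow]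
    congr 1
    field_simp
  have h3 : (1 + (b : ℝ) * (1 / m)) * m ^ b ≤ (m + 1) ^ b := by
    rw [← h2]
    exact mul_le_mul_of_nonneg_right h1 (by positivity)
  have h4 : m ^ b * (m + 1 + ρ + b) ≤ (m + 1) ^ b * (m + 1 + ρ) := by
    have h5 : m ^ b * (m + 1 + ρ + b) ≤ (1 + (b : ℝ) * (1 / m)) * m ^ b * (m + 1 + ρ) := by
      have h6 : (b : ℝ) ≤ (b : ℝ) * (1 / m) * (m + 1 + ρ) := by
        have h7 : (b : ℝ) * (1 / m) * (m + 1 + ρ) = b * ((m + 1 + ρ) / m) := by ring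
        rw [h7]
        have h8 : 1 ≤ (m + 1 + ρ) / m := by
          rw [le_div_iff₀ hm]
          linarith
        have hb : (0 : ℝ) ≤ b := Nat.cast_nonneg b
        nlinarith
      have h9 : (1 + (b : ℝ) * (1 / m)) * m ^ b * (m + 1 + ρ) =
          m ^ b * ((m + 1 + ρ) + (b : ℝ) * (1 / m) * (m + 1 + ρ)) := by ring
      rw [h9]
      exact mul_le_mul_of_nonneg_left (by linarith) (by positivity)
    exact h5.trans (mul_le_mul_of_nonneg_right h3 (by linarith))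
  have h10 : m ^ b * (m + 1 + ρ + b) * E1 ≤ (m + 1) ^ (b + 1) * E0 := by
    calc m ^ b * (m + 1 + ρ + b) * E1 ≤ (m + 1) ^ b * (m + 1 + ρ) * E1 :=
          mul_le_mul_of_nonneg_right h4 hE1
      _ = (m + 1) ^ b * ((m + 1 + ρ) * E1) := by ring
      _ ≤ (m + 1) ^ b * ((m + 1) * E0) := mul_le_mul_of_nonneg_left h (by positivity)
      _ = (m + 1) ^ (b + 1) * E0 := by ring
  have h11 : m * ((m ^ (b + 1))⁻¹ * E0) = (m ^ b)⁻¹ * E0 := by
    rw [pow_succ]
    field_simp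
  rw [h11]
  have h12 : (m + 1 + ρ + b) * (((m + 1) ^ (b + 1))⁻¹ * E1) =
      (m ^ b)⁻¹ * ((m + 1) ^ (b + 1))⁻¹ * (m ^ b * (m + 1 + ρ + b) * E1) := by
    field_simp
  rw [h12]
  have h13 : (m ^ b)⁻¹ * E0 = (m ^ b)⁻¹ * ((m + 1) ^ (b + 1))⁻¹ * ((m + 1) ^ (b + 1) * E0) := by
    field_simp
  rw [h13]
  exact mul_le_mul_of_nonneg_left h10 (by positivity)

/-- one letter more -/
lemma star {q : List ℕ} {ρ : ℝ} (hρ : 0 ≤ ρ) {N : ℕ}
    (hq : ∀ M : ℕ, M + 1 ≤ N → ((M : ℝ) + 1 + ρ) * ep q (M + 1) N ≤ ((M : ℝ) + 1) * ep q M N) (b : ℕ) :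
    ∀ i m : ℕ, m + i = N → 1 ≤ m →
      (ρ + b) * ep (q ++ [b + 1]) m N ≤ (m : ℝ) * (((m : ℝ) ^ (b + 1))⁻¹ * ep q m N) := by
  intro i
  induction i with
  | zero =>
    intro m hm h1
    rw [← hm, add_zero, ep_self' (by simp)]
    rw [mul_zero]
    exact mul_nonneg (Nat.cast_nonneg _) (mul_nonneg (by positivity) (ep_nonneg _ _ _))
  | succ i ih =>
    intro m hm h1
    have h2 := ih (m + 1) (by omega) (by omega)
    have h3 := ep_left q (b + 1) (by omega : m + 1 ≤ N)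
    have h4 := hq m (by omega)
    have hm0 : (0 : ℝ) < m := by exact_mod_cast h1
    have h5 := key hm0 hρ (ep_nonneg q (m + 1) N) b h4
    rw [h3]
    push_cast at h2 ⊢
    have h6 : (ρ + b) * (ep (q ++ [b + 1]) (m + 1) N + (((m : ℝ) + 1) ^ (b + 1))⁻¹ * ep q (m + 1) N) =
        (ρ + b) * ep (q ++ [b + 1]) (m + 1) N +
          (ρ + b) * ((((m : ℝ) + 1) ^ (b + 1))⁻¹ * ep q (m + 1) N) := by ring
    rw [h6]
    have h7 : ((m : ℝ) + 1 + ρ + b) * ((((m : ℝ) + 1) ^ (b + 1))⁻¹ * ep q (m + 1) N) =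
        ((m : ℝ) + 1) * ((((m : ℝ) + 1) ^ (b + 1))⁻¹ * ep q (m + 1) N) +
          (ρ + b) * ((((m : ℝ) + 1) ^ (b + 1))⁻¹ * ep q (m + 1) N) := by ring
    linarith

/-- the weight minus the depth, as a real number -/
noncomputable def wd (p : List ℕ) : ℝ := (p.sum : ℝ) - p.length

lemma wd_nonneg {p : List ℕ} (hp : ∀ x ∈ p, 1 ≤ x) : 0 ≤ wd p := by
  have h : p.length ≤ p.sum := by
    induction p with
    | nil => simp
    | cons a p ih =>
      have h1 := hp a List.mem_cons_self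
      have h2 := ih fun x hx => hp x (List.mem_cons_of_mem _ hx)
      simp only [List.length_cons, List.sum_cons]
      omega
  rw [wd]
  have : (p.length : ℝ) ≤ p.sum := by exact_mod_cast h
  linarith

lemma wd_app (q : List ℕ) (b : ℕ) : wd (q ++ [b + 1]) = wd q + b := by
  rw [wd, wd, List.sum_append, List.length_append]
  simp only [List.sum_cons, List.sum_nil, List.length_cons, List.length_nil]
  push_cast
  ring

/-- **The inequality**: the weight of the next value is smaller by the factor `(M+1)/(M+1+wt-dep)`. -/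
lemma newt (p : List ℕ) (hp : ∀ x ∈ p, 1 ≤ x) (N : ℕ) : ∀ M : ℕ, M + 1 ≤ N →
    ((M : ℝ) + 1 + wd p) * ep p (M + 1) N ≤ ((M : ℝ) + 1) * ep p M N := by
  induction p using List.reverseRecOn with
  | nil =>
    intro M _
    rw [ep_nil, ep_nil, wd]
    simp
  | append_singleton q a ih =>
    intro M hM
    have ha : 1 ≤ a := hp a (by simp)
    obtain ⟨b, rfl⟩ : ∃ b, a = b + 1 := ⟨a - 1, by omega⟩
    have hq : ∀ x ∈ q, 1 ≤ x := fun x hx => hp x (by simp [hx])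
    have h1 := star (wd_nonneg hq) (ih hq) b (N - (M + 1)) (M + 1) (by omega) (by omega)
    have h2 := ep_left q (b + 1) hM
    rw [wd_app, h2]
    push_cast at h1 ⊢
    have h3 : ((M : ℝ) + 1 + (wd q + b)) * ep (q ++ [b + 1]) (M + 1) N =
      ((M : ℝ) + 1) * ep (q ++ [b + 1]) (M + 1) N + (wd q + b) * ep (q ++ [b + 1]) (M + 1) N := by ring
    rw [h3]
    linarith

/-- the weights of the values `F n` in `∑ F n * w n` -/
noncomputable def wt (q : List ℕ) (s N n : ℕ) : ℝ := (((n + 1 : ℕ) : ℝ) ^ s)⁻¹ * ep q (n + 1) N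

lemma wt_nonneg (q : List ℕ) (s N n : ℕ) : 0 ≤ wt q s N n := mul_nonneg (by positivity) (ep_nonneg _ _ _)

lemma wt_step (q : List ℕ) (b : ℕ) (hq : ∀ x ∈ q, 1 ≤ x) (N n : ℕ) (h : n + 2 ≤ N) :
    ((n : ℝ) + 2 + wd (q ++ [b + 1])) * wt q (b + 1) N (n + 1) ≤ ((n : ℝ) + 1) * wt q (b + 1) N n := by
  have h1 := newt q hq N (n + 1) h
  push_cast at h1
  have hn : (0 : ℝ) < (n : ℝ) + 1 := by positivity
  have h2 := key hn (wd_nonneg hq) (ep_nonneg q (n + 1 + 1) N) b h1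
  rw [wd_app, wt, wt]
  push_cast
  have h3 : ((n : ℝ) + 2 + (wd q + b)) = (n : ℝ) + 1 + 1 + wd q + b := by ring
  rw [h3]
  exact h2

end Pool.Agent.U623.HC
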