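import Mathlib
import Pool.Agent.U623.HC.Newt

/-!
# The first nonzero value dominates, also for long last parts
-/

set_option autoImplicit false

namespace Pool.Agent.U623.HC

open Pool.Agent.H447R2.MZ (H H_nil H_cons H_cons_zero H_cons_succ H_nonneg)
open Pool.Agent.Q217.TT (ep ep_nil ep_self ep_succ ep_left ep_nonneg)

lemma H_small (w : List ℕ) : ∀ n : ℕ, n < w.length → H w n = 0 := by
  induction w with
  | nil => intro n hn; simp at hn
  | cons a w ih =>
    intro n hn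
    rw [H_cons]
    refine Finset.sum_eq_zero fun k hk => ?_
    have hk' := Finset.mem_range.1 hk
    rw [List.length_cons] at hn
    rw [ih k (by omega), mul_zero]

lemma H_len (a : ℕ) (w : List ℕ) : H (a :: w) (a :: w).length =
    (((w.length + 1 : ℕ) : ℝ) ^ a)⁻¹ * H w w.length := by
  rw [List.length_cons, H_cons_succ, H_small (a :: w) w.length (by simp), zero_add]

lemma H_len_pos (w : List ℕ) : 0 < H w w.length := by
  induction w with
  | nil => rw [H_nil]; exact one_pos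
  | cons a w ih => rw [H_len]; exact mul_pos (by positivity) ih

lemma sum_choose (k n : ℕ) : ∑ m ∈ Finset.range n, (Nat.choose m k : ℝ) = (Nat.choose n (k + 1) : ℝ) := by
  induction n with
  | zero => simp
  | succ n ih =>
    rw [Finset.sum_range_succ, ih, Nat.choose_succ_succ]
    push_cast
    ring

lemma H_le_t (t : List ℕ) : ∀ n : ℕ, H t n ≤ H t t.length * (Nat.choose n t.length : ℝ) := by
  induction t with
  | nil => intro n; rw [H_nil, H_nil]; simp
  | cons a t ih =>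
    intro n
    rw [H_len, H_cons, List.length_cons, ← sum_choose, Finset.mul_sum]
    refine Finset.sum_le_sum fun m _ => ?_
    rcases Nat.lt_or_ge m t.length with h | h
    · rw [H_small t m h, mul_zero]
      have := (H_len_pos t).le
      positivity
    · have h1 := ih m
      have h2 : (((m + 1 : ℕ) : ℝ) ^ a)⁻¹ ≤ (((t.length + 1 : ℕ) : ℝ) ^ a)⁻¹ := by
        apply inv_anti₀ (by positivity)
        apply pow_le_pow_left₀ (by positivity)
        exact_mod_cast (by omega : t.length + 1 ≤ m + 1)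
      calc (((m + 1 : ℕ) : ℝ) ^ a)⁻¹ * H t m
          ≤ (((t.length + 1 : ℕ) : ℝ) ^ a)⁻¹ * (H t t.length * (Nat.choose m t.length : ℝ)) :=
            mul_le_mul h2 h1 (H_nonneg _ _) (by positivity)
        _ = _ := by ring

lemma H_le_ut (u t : List ℕ) : ∀ n : ℕ,
    H (u ++ t) n ≤ H t t.length * (Nat.choose n (u.length + t.length) : ℝ) := by
  induction u with
  | nil => intro n; rw [List.nil_append, List.length_nil, zero_add]; exact H_le_t t n
  | cons a u ih =>
    intro n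
    rw [List.cons_append, H_cons, List.length_cons,
      show u.length + 1 + t.length = (u.length + t.length) + 1 by ring, ← sum_choose, Finset.mul_sum]
    refine Finset.sum_le_sum fun m _ => ?_
    have h1 := ih m
    have h2 : (((m + 1 : ℕ) : ℝ) ^ a)⁻¹ ≤ 1 := by
      apply inv_le_one_of_one_le₀
      apply one_le_pow₀
      exact_mod_cast (by omega : 1 ≤ m + 1)
    calc (((m + 1 : ℕ) : ℝ) ^ a)⁻¹ * H (u ++ t) m ≤ 1 * H (u ++ t) m :=
          mul_le_mul_of_nonneg_right h2 (H_nonneg _ _)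
      _ ≤ _ := by rw [one_mul]; exact h1

lemma choose_up (n k i : ℕ) : Nat.choose n k ≤ Nat.choose (n + i) (k + i) := by
  induction i with
  | zero => exact le_rfl
  | succ i ih =>
    refine ih.trans ?_
    rw [← add_assoc, ← add_assoc, Nat.choose_succ_succ]
    exact Nat.le_add_right _ _

lemma H_le_R (u t : List ℕ) (R : ℕ) (hR : u.length ≤ R) (n : ℕ) :
    H (u ++ t) n ≤ H t t.length * (Nat.choose (n + R) (t.length + R) : ℝ) := by
  refine (H_le_ut u t n).trans (mul_le_mul_of_nonneg_left ?_ (H_len_pos t).le)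
  have h1 := choose_up n (u.length + t.length) (R - u.length)
  have h2 : Nat.choose (n + (R - u.length)) (u.length + t.length + (R - u.length)) ≤
      Nat.choose (n + R) (t.length + R) := by
    rw [show u.length + t.length + (R - u.length) = t.length + R by omega]
    exact Nat.choose_le_choose _ (by omega)
  exact_mod_cast h1.trans h2

/-- the tail sum -/
lemma tail (w : ℕ → ℝ) (N l R : ℕ) {r : ℝ} (hw : ∀ n, 0 ≤ w n) (hr0 : 0 < r)
    (hstep : ∀ n : ℕ, n + 2 ≤ N → ((n : ℝ) + 2 + r) * w (n + 1) ≤ ((n : ℝ) + 1) * w n)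
    (hr : 2 * ((R : ℝ) + l) * (1 + l) ≤ r) :
    ∀ i n1 : ℕ, n1 + 1 + i = N → l ≤ n1 →
      ∑ n ∈ Finset.Ico n1 N, w n * (Nat.choose (n + R) (l + R) : ℝ) ≤
        2 * ((n1 : ℝ) + 1 + r) / r * (w n1 * (Nat.choose (n1 + R) (l + R) : ℝ)) := by
  intro i
  induction i with
  | zero =>
    intro n1 h1 _
    rw [← h1, add_zero, Nat.Ico_succ_singleton, Finset.sum_singleton]
    have h2 : 0 ≤ w n1 * (Nat.choose (n1 + R) (l + R) : ℝ) := mul_nonneg (hw _) (Nat.cast_nonneg _)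
    have h3 : 1 ≤ 2 * ((n1 : ℝ) + 1 + r) / r := by
      rw [le_div_iff₀ hr0]
      have : (0 : ℝ) ≤ n1 := Nat.cast_nonneg _
      linarith
    nlinarith
  | succ i ih =>
    intro n1 h1 hl
    have h2 := ih (n1 + 1) (by omega) (by omega)
    rw [Finset.sum_eq_sum_Ico_succ_bot (by omega : n1 < N)]
    have h3 := hstep n1 (by omega)
    set c0 : ℝ := (Nat.choose (n1 + R) (l + R) : ℝ) with hc0
    set c1 : ℝ := (Nat.choose (n1 + 1 + R) (l + R) : ℝ) with hc1
    have hc00 : 0 ≤ c0 := Nat.cast_nonneg _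
    have hc10 : 0 ≤ c1 := Nat.cast_nonneg _
    obtain ⟨d, hd⟩ : ∃ d : ℕ, n1 + 1 = l + (d + 1) := ⟨n1 - l, by omega⟩
    have h4 : c1 * ((d : ℝ) + 1) = c0 * ((n1 : ℝ) + 1 + R) := by
      have h5 := Nat.choose_mul_succ_eq (n1 + R) (l + R)
      rw [show n1 + R + 1 = n1 + 1 + R by ring, show n1 + 1 + R - (l + R) = d + 1 by omega] at h5
      have h6 : (c0 : ℝ) * (((n1 + 1 + R : ℕ)) : ℝ) = c1 * ((d + 1 : ℕ) : ℝ) := by
        rw [hc0, hc1]
        exact_mod_cast h5
      push_cast at h6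
      rw [← h6]
    have hx : (n1 : ℝ) + 1 = l + (d + 1) := by exact_mod_cast hd
    have hd0 : (0 : ℝ) ≤ d := Nat.cast_nonneg _
    have hl0 : (0 : ℝ) ≤ l := Nat.cast_nonneg _
    have hR0 : (0 : ℝ) ≤ R := Nat.cast_nonneg _
    have hn0 : (0 : ℝ) ≤ n1 := Nat.cast_nonneg _
    -- the inequality of the coefficients
    have h7 : 2 * ((n1 : ℝ) + 1) * c1 ≤ c0 * (2 * ((n1 : ℝ) + 1) + r) := by
      have h8 : 2 * ((n1 : ℝ) + 1) * ((n1 : ℝ) + 1 + R) ≤ (2 * ((n1 : ℝ) + 1) + r) * (d + 1) := by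
        rw [hx]
        nlinarith [mul_nonneg hd0 (sub_nonneg.2 hr), mul_nonneg hl0 hR0, mul_nonneg hd0 hl0, mul_nonneg hd0 hR0,
          mul_nonneg (mul_nonneg hd0 hl0) hR0, mul_nonneg (mul_nonneg hd0 hl0) hl0]
      have h9 : 2 * ((n1 : ℝ) + 1) * c1 * ((d : ℝ) + 1) ≤ c0 * (2 * ((n1 : ℝ) + 1) + r) * ((d : ℝ) + 1) := by
        calc 2 * ((n1 : ℝ) + 1) * c1 * ((d : ℝ) + 1) = 2 * ((n1 : ℝ) + 1) * (c1 * ((d : ℝ) + 1)) := by ring
          _ = c0 * (2 * ((n1 : ℝ) + 1) * ((n1 : ℝ) + 1 + R)) := by rw [h4]; ring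
          _ ≤ c0 * ((2 * ((n1 : ℝ) + 1) + r) * (d + 1)) := mul_le_mul_of_nonneg_left h8 hc00
          _ = _ := by ring
      exact le_of_mul_le_mul_right h9 (by positivity)
    have hwn := hw n1
    have h10 : 2 * (((n1 + 1 : ℕ) : ℝ) + 1 + r) / r * (w (n1 + 1) * c1) ≤
        2 / r * (((n1 : ℝ) + 1) * w n1 * c1) := by
      push_cast
      have h11 : 2 * ((n1 : ℝ) + 1 + 1 + r) / r * (w (n1 + 1) * c1) =
          2 / r * ((((n1 : ℝ) + 2 + r) * w (n1 + 1)) * c1) := by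
        field_simp
        ring
      rw [h11]
      exact mul_le_mul_of_nonneg_left (mul_le_mul_of_nonneg_right h3 hc10) (by positivity)
    have h12 : 2 / r * (((n1 : ℝ) + 1) * w n1 * c1) ≤ 1 / r * (w n1 * (c0 * (2 * ((n1 : ℝ) + 1) + r))) := by
      have h13 := mul_le_mul_of_nonneg_left h7 hwn
      have h14 : 2 / r * (((n1 : ℝ) + 1) * w n1 * c1) = 1 / r * (w n1 * (2 * ((n1 : ℝ) + 1) * c1)) := by ring
      rw [h14]
      exact mul_le_mul_of_nonneg_left h13 (by positivity)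
    have h15 : w n1 * c0 + 1 / r * (w n1 * (c0 * (2 * ((n1 : ℝ) + 1) + r))) =
        2 * ((n1 : ℝ) + 1 + r) / r * (w n1 * c0) := by
      field_simp
      ring
    rw [← h15]
    linarith [h2.trans (h10.trans h12)]

/-- **The estimate**: the first nonzero value dominates. -/
lemma est (w F : ℕ → ℝ) (N l R n0 : ℕ) {r C : ℝ} (hw : ∀ n, 0 ≤ w n) (hr0 : 0 < r) (hC : 0 ≤ C)
    (hstep : ∀ n : ℕ, n + 2 ≤ N → ((n : ℝ) + 2 + r) * w (n + 1) ≤ ((n : ℝ) + 1) * w n)
    (hr : 2 * ((R : ℝ) + l) * (1 + l) ≤ r) (hF : ∀ n, |F n| ≤ C * (Nat.choose (n + R) (l + R) : ℝ))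
    (hF0 : ∀ n < n0, F n = 0) (hl : l ≤ n0) (hN : n0 + 1 ≤ N) :
    |∑ n ∈ Finset.range N, F n * w n - F n0 * w n0| ≤
      C * (2 * ((n0 : ℝ) + 1) / r) * (Nat.choose (n0 + 1 + R) (l + R) : ℝ) * w n0 := by
  have hsplit : ∑ n ∈ Finset.range N, F n * w n - F n0 * w n0 = ∑ n ∈ Finset.Ico (n0 + 1) N, F n * w n := by
    rw [← Finset.sum_range_add_sum_Ico _ hN, Finset.sum_range_succ,
      Finset.sum_eq_zero (s := Finset.range n0) fun n hn => by rw [hF0 n (Finset.mem_range.1 hn), zero_mul]]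
    ring
  rw [hsplit]
  have h1 : |∑ n ∈ Finset.Ico (n0 + 1) N, F n * w n| ≤
      C * ∑ n ∈ Finset.Ico (n0 + 1) N, w n * (Nat.choose (n + R) (l + R) : ℝ) := by
    refine (Finset.abs_sum_le_sum_abs _ _).trans ?_
    rw [Finset.mul_sum]
    refine Finset.sum_le_sum fun n _ => ?_
    rw [abs_mul, abs_of_nonneg (hw n)]
    calc |F n| * w n ≤ C * (Nat.choose (n + R) (l + R) : ℝ) * w n := mul_le_mul_of_nonneg_right (hF n) (hw n)
      _ = _ := by ring
  refine h1.trans ?_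
  have hw0 := hw n0
  rcases Nat.lt_or_ge (n0 + 1) N with h | h
  · have h2 := tail w N l R hw hr0 hstep hr (N - (n0 + 2)) (n0 + 1) (by omega) (by omega)
    have h3 := hstep n0 (by omega)
    have hc : (0 : ℝ) ≤ (Nat.choose (n0 + 1 + R) (l + R) : ℝ) := Nat.cast_nonneg _
    have h4 : 2 * (((n0 + 1 : ℕ) : ℝ) + 1 + r) / r * (w (n0 + 1) * (Nat.choose (n0 + 1 + R) (l + R) : ℝ)) ≤
        2 * ((n0 : ℝ) + 1) / r * (Nat.choose (n0 + 1 + R) (l + R) : ℝ) * w n0 := by
      push_cast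
      have h5 : 2 * ((n0 : ℝ) + 1 + 1 + r) / r * (w (n0 + 1) * (Nat.choose (n0 + 1 + R) (l + R) : ℝ)) =
          2 / r * (((n0 : ℝ) + 2 + r) * w (n0 + 1)) * (Nat.choose (n0 + 1 + R) (l + R) : ℝ) := by
        field_simp
        ring
      rw [h5]
      have h6 : 2 * ((n0 : ℝ) + 1) / r * (Nat.choose (n0 + 1 + R) (l + R) : ℝ) * w n0 =
          2 / r * (((n0 : ℝ) + 1) * w n0) * (Nat.choose (n0 + 1 + R) (l + R) : ℝ) := by ring
      rw [h6]
      exact mul_le_mul_of_nonneg_right (mul_le_mul_of_nonneg_left h3 (by positivity)) hc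
    calc C * ∑ n ∈ Finset.Ico (n0 + 1) N, w n * (Nat.choose (n + R) (l + R) : ℝ)
        ≤ C * (2 * ((n0 : ℝ) + 1) / r * (Nat.choose (n0 + 1 + R) (l + R) : ℝ) * w n0) :=
          mul_le_mul_of_nonneg_left (h2.trans h4) hC
      _ = _ := by ring
  · rw [Finset.Ico_eq_empty (by omega), Finset.sum_empty, mul_zero]
    positivity

end Pool.Agent.U623.HC
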