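import Mathlib
import Pool.Agent.U623.HC.Est

/-!
# The middle parts: polynomials in the length of the last part
-/

set_option autoImplicit false

namespace Pool.Agent.U623.HC

open Pool.Agent.H447R2.MZ (H H_nil H_cons H_cons_zero H_cons_succ H_nonneg)
open Pool.Agent.Q217.TT (ep ep_nil ep_self ep_succ ep_left ep_nonneg nat H_app H_nat indep_fin)
open Pool.Agent.TH507.HS (hs)

/-- the product of the numbers of the interval -/
noncomputable def dl (k j : ℕ) : ℝ := ∏ i ∈ Finset.range j, ((k + i + 1 : ℕ) : ℝ)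

lemma dl_pos (k j : ℕ) : 0 < dl k j := Finset.prod_pos fun i _ => by positivity

lemma dl_le (k j : ℕ) : dl k j ≤ ((k : ℝ) + j) ^ j := by
  rw [dl]
  calc ∏ i ∈ Finset.range j, ((k + i + 1 : ℕ) : ℝ) ≤ ∏ _i ∈ Finset.range j, ((k : ℝ) + j) := by
        refine Finset.prod_le_prod (fun i _ => by positivity) fun i hi => ?_
        have := Finset.mem_range.1 hi
        exact_mod_cast (by omega : k + i + 1 ≤ k + j)
    _ = _ := by rw [Finset.prod_const, Finset.card_range]

lemma poly_ep (A : ℕ) (u : List ℕ) (hu : ∀ x ∈ u, x ≤ A) : ∀ j : ℕ, ∃ P : Polynomial ℤ, ∀ k : ℕ,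
    ep u k (k + j) * dl k j ^ A = ((P.eval (k : ℤ) : ℤ) : ℝ) := by
  induction u with
  | nil =>
    intro j
    refine ⟨(∏ i ∈ Finset.range j, (Polynomial.X + Polynomial.C ((i : ℤ) + 1))) ^ A, fun k => ?_⟩
    rw [ep_nil, one_mul, Polynomial.eval_pow, Polynomial.eval_prod, dl]
    push_cast
    congr 1
    refine Finset.prod_congr rfl fun i _ => ?_
    simp only [Polynomial.eval_add, Polynomial.eval_X, Polynomial.eval_C]
    push_cast
    ring
  | cons s u ih =>
    have hs : s ≤ A := hu s List.mem_cons_self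
    have hu' : ∀ x ∈ u, x ≤ A := fun x hx => hu x (List.mem_cons_of_mem _ hx)
    intro j
    induction j with
    | zero =>
      refine ⟨0, fun k => ?_⟩
      rw [add_zero, ep_self, zero_mul]
      simp
    | succ j ihj =>
      obtain ⟨P, hP⟩ := ihj
      obtain ⟨Q, hQ⟩ := ih hu' j
      refine ⟨P * (Polynomial.X + Polynomial.C ((j : ℤ) + 1)) ^ A +
        Q * (Polynomial.X + Polynomial.C ((j : ℤ) + 1)) ^ (A - s), fun k => ?_⟩
      have h1 : dl k (j + 1) = dl k j * ((k + j + 1 : ℕ) : ℝ) := by rw [dl, Finset.prod_range_succ, ← dl]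
      rw [← add_assoc, ep_succ s u (by omega : k ≤ k + j), h1, mul_pow]
      have hx : (0 : ℝ) < ((k + j + 1 : ℕ) : ℝ) := by positivity
      have h2 : (((k + j + 1 : ℕ) : ℝ) ^ s)⁻¹ * ((k + j + 1 : ℕ) : ℝ) ^ A = ((k + j + 1 : ℕ) : ℝ) ^ (A - s) := by
        rw [← Nat.sub_add_cancel hs, pow_add, Nat.add_sub_cancel]
        field_simp
      have h3 : (ep (s :: u) k (k + j) + (((k + j + 1 : ℕ) : ℝ) ^ s)⁻¹ * ep u k (k + j)) *
          (dl k j ^ A * ((k + j + 1 : ℕ) : ℝ) ^ A) =
          (ep (s :: u) k (k + j) * dl k j ^ A) * ((k + j + 1 : ℕ) : ℝ) ^ A +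
          (ep u k (k + j) * dl k j ^ A) * ((((k + j + 1 : ℕ) : ℝ) ^ s)⁻¹ * ((k + j + 1 : ℕ) : ℝ) ^ A) := by ring
      rw [h3, h2, hP, hQ]
      simp only [Polynomial.eval_add, Polynomial.eval_mul, Polynomial.eval_pow, Polynomial.eval_X,
        Polynomial.eval_C]
      push_cast
      ring

/-- integer polynomials do not vanish at integers beyond their coefficients -/
lemma int_low (k : ℕ) (hk : 0 < k) : ∀ (n : ℕ) (P : Polynomial ℤ), P.natDegree ≤ n → P ≠ 0 →
    (∀ i, |P.coeff i| < k) → P.eval (k : ℤ) ≠ 0 := by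
  intro n
  induction n with
  | zero =>
    intro P hn hP _ h
    obtain ⟨a, rfl⟩ : ∃ a, P = Polynomial.C a := ⟨P.coeff 0, Polynomial.eq_C_of_natDegree_le_zero hn⟩
    rw [Polynomial.eval_C] at h
    exact hP (by rw [h, Polynomial.C_0])
  | succ n ih =>
    intro P hn hP hco h
    have h1 := Polynomial.divX_mul_X_add P
    have h2 : P.eval (k : ℤ) = (Polynomial.divX P).eval (k : ℤ) * k + P.coeff 0 := by
      conv_lhs => rw [← h1]
      simp
    by_cases h0 : P.coeff 0 = 0
    · rw [h0, add_zero] at h2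
      rw [h0, Polynomial.C_0, add_zero] at h1
      have h3 : Polynomial.divX P ≠ 0 := by
        intro h4
        rw [h4, zero_mul] at h1
        exact hP h1.symm
      have h4 := ih (Polynomial.divX P) (by rw [Polynomial.natDegree_divX_eq_natDegree_tsub_one]; omega) h3
        (fun i => by rw [Polynomial.coeff_divX]; exact hco (i + 1))
      rw [h] at h2
      have hk' : (k : ℤ) ≠ 0 := by exact_mod_cast hk.ne'
      exact (mul_ne_zero h4 hk') h2.symm
    · rw [h] at h2
      have h3 : (k : ℤ) ∣ P.coeff 0 := ⟨-(Polynomial.divX P).eval (k : ℤ), by linarith⟩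
      have h4 := Int.le_of_dvd (abs_pos.2 h0) ((dvd_abs _ _).2 h3)
      have h5 := hco 0
      omega

lemma int_low' (P : Polynomial ℤ) (hP : P ≠ 0) (k : ℕ) (hk : 0 < k) (h : ∀ i, |P.coeff i| < k) :
    (1 : ℝ) ≤ |((P.eval (k : ℤ) : ℤ) : ℝ)| := by
  have h1 := int_low k hk P.natDegree P le_rfl hP h
  rw [← Int.cast_abs]
  exact_mod_cast Int.one_le_abs h1

/-- real polynomials -/
lemma real_low (P : Polynomial ℝ) (hP : P ≠ 0) : ∃ k0 : ℕ, ∀ k : ℕ, k0 ≤ k → 1 / (k : ℝ) ≤ |P.eval (k : ℝ)| := by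
  rcases lt_or_ge 0 P.degree with h | h
  · have h1 := (Polynomial.abs_tendsto_atTop P h).comp tendsto_natCast_atTop_atTop
    have h2 := h1.eventually_ge_atTop 1
    obtain ⟨k0, hk0⟩ := Filter.eventually_atTop.1 h2
    refine ⟨max k0 1, fun k hk => ?_⟩
    have h3 := hk0 k ((le_max_left _ _).trans hk)
    have h4 : (1 : ℝ) ≤ k := by exact_mod_cast (le_max_right _ _).trans hk
    refine le_trans ?_ h3
    rw [div_le_one (by linarith)]
    exact h4
  · obtain ⟨a, rfl⟩ : ∃ a, P = Polynomial.C a := ⟨P.coeff 0, Polynomial.eq_C_of_degree_le_zero h⟩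
    have ha : a ≠ 0 := fun h0 => hP (by rw [h0, Polynomial.C_0])
    obtain ⟨k0, hk0⟩ := exists_nat_ge (1 / |a|)
    have ha' : 0 < |a| := abs_pos.2 ha
    refine ⟨k0, fun k hk => ?_⟩
    rw [Polynomial.eval_C]
    have h1 : 1 / |a| ≤ k := hk0.trans (by exact_mod_cast hk)
    have h2 : (0 : ℝ) < k := lt_of_lt_of_le (by positivity) h1
    rw [div_le_iff₀ h2]
    rw [div_le_iff₀ ha'] at h1
    linarith

lemma ep_zero (u : List ℕ) (N : ℕ) : ep u 0 N = H u N := by
  induction u generalizing N with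
  | nil => rw [ep_nil, H_nil]
  | cons s u ih =>
    rw [ep, H_cons, Finset.range_eq_Ico]
    exact Finset.sum_congr rfl fun n _ => by rw [ih]

/-- independence over the real numbers, finitely many values -/
lemma indep_real (U : Finset (List ℕ+)) : ∃ M : ℕ, ∀ c : List ℕ+ → ℝ,
    (∃ u ∈ U, c u ≠ 0) → ∃ n, n ≤ M ∧ ∑ u ∈ U, c u * H (nat u) n ≠ 0 := by
  obtain ⟨M, hM⟩ := indep_fin U
  refine ⟨M, fun c hc => ?_⟩
  by_contra hcon
  push Not at hcon
  obtain ⟨u, hu, hcu⟩ := hc
  apply hcu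
  rw [← Module.forall_dual_apply_eq_zero_iff ℚ]
  intro f
  refine hM (fun v => f (c v)) (fun n hn => ?_) u hu
  have h1 := hcon n hn
  have h2 : f (∑ u ∈ U, c u * H (nat u) n) = ∑ u ∈ U, f (c u) * hs u (n + 1) := by
    rw [map_sum]
    refine Finset.sum_congr rfl fun v _ => ?_
    rw [H_nat, mul_comm (c v), ← Rat.smul_def, map_smul, smul_eq_mul, mul_comm]
  rw [← h2, h1, map_zero]

/-- the combination of the middle parts -/
noncomputable def EE (U : Finset (List ℕ+)) (c : List ℕ+ → ℝ) (k n : ℕ) : ℝ :=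
  ∑ u ∈ U, c u * ep (nat u) k n

/-- the values -/
noncomputable def FF (U : Finset (List ℕ+)) (c : List ℕ+ → ℝ) (t : List ℕ) (n : ℕ) : ℝ :=
  ∑ u ∈ U, c u * H (nat u ++ t) n

lemma FF_eq (U : Finset (List ℕ+)) (c : List ℕ+ → ℝ) (y : ℕ) (t : List ℕ) (n : ℕ) :
    FF U c (y :: t) n = ∑ m ∈ Finset.range n, H t m * (((m + 1 : ℕ) : ℝ) ^ y)⁻¹ * EE U c (m + 1) n := by
  rw [FF, Finset.sum_congr rfl fun (u : List ℕ+) _ => by rw [H_app, Finset.mul_sum], Finset.sum_comm]
  refine Finset.sum_congr rfl fun m _ => ?_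
  rw [EE, Finset.mul_sum]
  exact Finset.sum_congr rfl fun u _ => by ring

lemma FF_zero {U : Finset (List ℕ+)} {c : List ℕ+ → ℝ} {j0 : ℕ}
    (hz : ∀ j < j0, ∀ k, EE U c k (k + j) = 0) (y : ℕ) (t : List ℕ) (n : ℕ) (hn : n < (y :: t).length + j0) :
    FF U c (y :: t) n = 0 := by
  rw [FF_eq]
  refine Finset.sum_eq_zero fun m hm => ?_
  have hm' := Finset.mem_range.1 hm
  rw [List.length_cons] at hn
  rcases Nat.lt_or_ge m t.length with h | h
  · rw [H_small t m h]; ring
  · have h1 := hz (n - (m + 1)) (by omega) (m + 1)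
    rw [show m + 1 + (n - (m + 1)) = n by omega] at h1
    rw [h1, mul_zero]

lemma FF_first {U : Finset (List ℕ+)} {c : List ℕ+ → ℝ} {j0 : ℕ}
    (hz : ∀ j < j0, ∀ k, EE U c k (k + j) = 0) (y : ℕ) (t : List ℕ) :
    FF U c (y :: t) ((y :: t).length + j0) = H (y :: t) (y :: t).length *
      EE U c (y :: t).length ((y :: t).length + j0) := by
  rw [FF_eq, Finset.sum_eq_single t.length]
  · rw [H_len, List.length_cons]
    ring
  · intro m hm hne
    have hm' := Finset.mem_range.1 hm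
    rw [List.length_cons] at hm'
    rcases Nat.lt_or_ge m t.length with h | h
    · rw [H_small t m h]; ring
    · rw [List.length_cons]
      have h1 := hz (t.length + 1 + j0 - (m + 1)) (by omega) (m + 1)
      rw [show m + 1 + (t.length + 1 + j0 - (m + 1)) = t.length + 1 + j0 by omega] at h1
      rw [h1, mul_zero]
  · intro h
    exfalso
    apply h
    rw [List.length_cons, Finset.mem_range]
    omega

end Pool.Agent.U623.HC
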