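import Mathlib
import Pool.Agent.U623.HC.Poly

/-!
# Common first and last parts: the estimate at finite level
-/

set_option autoImplicit false

namespace Pool.Agent.U623.HC

open Pool.Agent.H447R2.MZ (H H_nil H_cons H_cons_zero H_cons_succ H_nonneg)
open Pool.Agent.Q217.TT (ep ep_nil ep_self ep_succ ep_left ep_nonneg nat H_app H_nat)

lemma H_split (q : List ℕ) (s : ℕ) (v : List ℕ) (N : ℕ) :
    H (q ++ [s] ++ v) N = ∑ n ∈ Finset.range N, H v n * wt q s N n := by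
  rw [List.append_assoc, List.singleton_append, H_app]
  exact Finset.sum_congr rfl fun n _ => by rw [wt]; ring

lemma core {U : Finset (List ℕ+)} {c : List ℕ+ → ℝ} {j0 R : ℕ} (hR : ∀ u ∈ U, (nat u).length ≤ R)
    (hz : ∀ j < j0, ∀ k, EE U c k (k + j) = 0) (y : ℕ) (t q : List ℕ) (b : ℕ) (hq : ∀ x ∈ q, 1 ≤ x) (N l : ℕ)
    (hl : (y :: t).length = l) (hN : l + j0 + 1 ≤ N) (hρ : 0 < wd (q ++ [b + 1]))
    (hr : 2 * ((R : ℝ) + l) * (1 + l) ≤ wd (q ++ [b + 1]))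
    (hE : (∑ u ∈ U, |c u|) * (2 * (((l + j0 : ℕ) : ℝ) + 1) / wd (q ++ [b + 1])) *
      (Nat.choose (l + j0 + 1 + R) (l + R) : ℝ) ≤ |EE U c l (l + j0)| / 2) :
    |EE U c l (l + j0)| / 2 * H (y :: t) l * wt q (b + 1) N (l + j0) ≤
      |∑ u ∈ U, c u * H (q ++ [b + 1] ++ (nat u ++ (y :: t))) N| := by
  have hsum : ∑ u ∈ U, c u * H (q ++ [b + 1] ++ (nat u ++ (y :: t))) N =
      ∑ n ∈ Finset.range N, FF U c (y :: t) n * wt q (b + 1) N n := by
    rw [Finset.sum_congr rfl fun (u : List ℕ+) _ => by rw [H_split, Finset.mul_sum], Finset.sum_comm]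
    refine Finset.sum_congr rfl fun n _ => ?_
    rw [FF, Finset.sum_mul]
    exact Finset.sum_congr rfl fun u _ => by ring
  have hHt : 0 < H (y :: t) l := by rw [← hl]; exact H_len_pos _
  have hF : ∀ n, |FF U c (y :: t) n| ≤ (∑ u ∈ U, |c u|) * H (y :: t) l * (Nat.choose (n + R) (l + R) : ℝ) := by
    intro n
    rw [FF]
    refine (Finset.abs_sum_le_sum_abs _ _).trans ?_
    rw [mul_assoc, Finset.sum_mul]
    refine Finset.sum_le_sum fun u hu => ?_
    rw [abs_mul, abs_of_nonneg (H_nonneg _ n)]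
    have h1 := H_le_R (nat u) (y :: t) R (hR u hu) n
    rw [hl] at h1
    exact mul_le_mul_of_nonneg_left h1 (abs_nonneg _)
  have hF0 : ∀ n < l + j0, FF U c (y :: t) n = 0 := by
    intro n hn
    exact FF_zero hz y t n (by rw [hl]; exact hn)
  have hF1 : FF U c (y :: t) (l + j0) = H (y :: t) l * EE U c l (l + j0) := by
    have := FF_first hz y t
    rw [hl] at this
    exact this
  have hC : 0 ≤ (∑ u ∈ U, |c u|) * H (y :: t) l :=
    mul_nonneg (Finset.sum_nonneg fun u _ => abs_nonneg _) hHt.le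
  have h1 := est (wt q (b + 1) N) (FF U c (y :: t)) N l R (l + j0) (wt_nonneg q (b + 1) N) hρ hC
    (fun n hn => wt_step q b hq N n hn) hr hF hF0 (by omega) hN
  rw [hF1, ← hsum] at h1
  have hw := wt_nonneg q (b + 1) N (l + j0)
  have h2 : (∑ u ∈ U, |c u|) * H (y :: t) l * (2 * (((l + j0 : ℕ) : ℝ) + 1) / wd (q ++ [b + 1])) *
      (Nat.choose (l + j0 + 1 + R) (l + R) : ℝ) * wt q (b + 1) N (l + j0) ≤
      |EE U c l (l + j0)| / 2 * (H (y :: t) l * wt q (b + 1) N (l + j0)) := by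
    calc (∑ u ∈ U, |c u|) * H (y :: t) l * (2 * (((l + j0 : ℕ) : ℝ) + 1) / wd (q ++ [b + 1])) *
          (Nat.choose (l + j0 + 1 + R) (l + R) : ℝ) * wt q (b + 1) N (l + j0)
        = ((∑ u ∈ U, |c u|) * (2 * (((l + j0 : ℕ) : ℝ) + 1) / wd (q ++ [b + 1])) *
          (Nat.choose (l + j0 + 1 + R) (l + R) : ℝ)) * (H (y :: t) l * wt q (b + 1) N (l + j0)) := by ring
      _ ≤ _ := mul_le_mul_of_nonneg_right hE (mul_nonneg hHt.le hw)
  have h3 := abs_sub_abs_le_abs_sub (H (y :: t) l * EE U c l (l + j0) * wt q (b + 1) N (l + j0))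
    (∑ u ∈ U, c u * H (q ++ [b + 1] ++ (nat u ++ (y :: t))) N)
  rw [abs_sub_comm, abs_mul, abs_mul, abs_of_pos hHt, abs_of_nonneg hw] at h3
  have h4 := h3.trans (h1.trans h2)
  have h5 : H (y :: t) l * |EE U c l (l + j0)| * wt q (b + 1) N (l + j0) -
      |EE U c l (l + j0)| / 2 * (H (y :: t) l * wt q (b + 1) N (l + j0)) =
      |EE U c l (l + j0)| / 2 * H (y :: t) l * wt q (b + 1) N (l + j0) := by ring
  linarith

lemma upper (J y : ℕ) (t q : List ℕ) (b : ℕ) (hq : ∀ x ∈ q, 1 ≤ x) (N l : ℕ)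
    (hl : (y :: t).length = l) (hN : l + J + 1 ≤ N) (hρ : 0 < wd (q ++ [b + 1]))
    (hr : 2 * ((J : ℝ) + l) * (1 + l) ≤ wd (q ++ [b + 1]))
    (hE : 2 * (((l + J : ℕ) : ℝ) + 1) / wd (q ++ [b + 1]) * (Nat.choose (l + J + 1 + J) (l + J) : ℝ) ≤ 1) :
    H (q ++ [b + 1] ++ (List.replicate J 2 ++ (y :: t))) N ≤
      2 * H (y :: t) l * wt q (b + 1) N (l + J) := by
  have hHt : 0 < H (y :: t) l := by rw [← hl]; exact H_len_pos _
  have hF : ∀ n, |H (List.replicate J 2 ++ (y :: t)) n| ≤ H (y :: t) l * (Nat.choose (n + J) (l + J) : ℝ) := by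
    intro n
    rw [abs_of_nonneg (H_nonneg _ n)]
    have h1 := H_le_R (List.replicate J 2) (y :: t) J (by simp) n
    rw [hl] at h1
    exact h1
  have hF0 : ∀ n < l + J, H (List.replicate J 2 ++ (y :: t)) n = 0 := by
    intro n hn
    refine H_small _ n ?_
    rw [List.length_append, List.length_replicate, hl]
    omega
  have h1 := est (wt q (b + 1) N) (H (List.replicate J 2 ++ (y :: t))) N l J (l + J) (wt_nonneg q (b + 1) N) hρ
    hHt.le (fun n hn => wt_step q b hq N n hn) hr hF hF0 (by omega) hN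
  rw [← H_split] at h1
  have hw := wt_nonneg q (b + 1) N (l + J)
  have h2 : H (List.replicate J 2 ++ (y :: t)) (l + J) ≤ H (y :: t) l := by
    have h3 := H_le_ut (List.replicate J 2) (y :: t) (l + J)
    rw [hl, List.length_replicate, show J + l = l + J by ring, Nat.choose_self] at h3
    simpa using h3
  have h4 : H (y :: t) l * (2 * (((l + J : ℕ) : ℝ) + 1) / wd (q ++ [b + 1])) *
      (Nat.choose (l + J + 1 + J) (l + J) : ℝ) * wt q (b + 1) N (l + J) ≤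
      1 * (H (y :: t) l * wt q (b + 1) N (l + J)) := by
    calc H (y :: t) l * (2 * (((l + J : ℕ) : ℝ) + 1) / wd (q ++ [b + 1])) *
          (Nat.choose (l + J + 1 + J) (l + J) : ℝ) * wt q (b + 1) N (l + J)
        = (2 * (((l + J : ℕ) : ℝ) + 1) / wd (q ++ [b + 1]) * (Nat.choose (l + J + 1 + J) (l + J) : ℝ)) *
          (H (y :: t) l * wt q (b + 1) N (l + J)) := by ring
      _ ≤ _ := mul_le_mul_of_nonneg_right hE (mul_nonneg hHt.le hw)
  have h5 := (le_abs_self _).trans (h1.trans h4)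
  have h6 := mul_le_mul_of_nonneg_right h2 hw
  linarith

lemma wt_anti (q : List ℕ) (b : ℕ) (hq : ∀ x ∈ q, 1 ≤ x) (N n0 n1 : ℕ) (h : n0 ≤ n1) (hN : n1 + 1 ≤ N)
    (hρ : 0 ≤ wd (q ++ [b + 1])) : wt q (b + 1) N n1 ≤ wt q (b + 1) N n0 := by
  induction n1, h using Nat.le_induction with
  | base => exact le_rfl
  | succ n1 hn ih =>
    refine le_trans ?_ (ih (by omega))
    have h1 := wt_step q b hq N n1 (by omega)
    have h2 := wt_nonneg q (b + 1) N (n1 + 1)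
    have h3 : (0 : ℝ) < (n1 : ℝ) + 1 := by positivity
    have h4 : ((n1 : ℝ) + 1) * wt q (b + 1) N (n1 + 1) ≤ ((n1 : ℝ) + 1) * wt q (b + 1) N n1 := by
      refine le_trans ?_ h1
      exact mul_le_mul_of_nonneg_right (by linarith) h2
    exact le_of_mul_le_mul_left h4 h3

lemma choose_bound (l j R x : ℕ) (h : l + j + 1 + R ≤ x) :
    (Nat.choose (l + j + 1 + R) (l + R) : ℝ) ≤ (x : ℝ) ^ (j + 1) := by
  have h1 : Nat.choose (l + j + 1 + R) (l + R) = Nat.choose (l + j + 1 + R) (j + 1) := by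
    rw [show l + j + 1 + R = (l + R) + (j + 1) by ring]
    exact Nat.choose_symm_add
  have h2 := Nat.choose_le_pow (l + j + 1 + R) (j + 1)
  have h3 : (l + j + 1 + R) ^ (j + 1) ≤ x ^ (j + 1) := Nat.pow_le_pow_left h _
  rw [h1]
  exact_mod_cast h2.trans h3

/-- **The estimate** with explicit exponents. -/
lemma total {U : Finset (List ℕ+)} {c : List ℕ+ → ℝ} {j0 R J A e : ℕ} (he1 : 1 ≤ e) (hR : ∀ u ∈ U, (nat u).length ≤ R)
    (hJ : j0 ≤ J) (hz : ∀ j < j0, ∀ k, EE U c k (k + j) = 0) (y : ℕ) (t q : List ℕ) (b : ℕ)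
    (hq : ∀ x ∈ q, 1 ≤ x) (N l : ℕ) (hl : (y :: t).length = l) (hl1 : 2 * J + R + 10 ≤ l) (hN : l + J + 1 ≤ N)
    (hC : ∑ u ∈ U, |c u| ≤ (l : ℝ) ^ 2) (hEE : 1 ≤ |EE U c l (l + j0)| * dl l j0 ^ A * (l : ℝ) ^ e)
    (hρ : (l : ℝ) ^ (2 * J * (A + 1) + 9 + e) ≤ wd (q ++ [b + 1])) :
    H (q ++ [b + 1] ++ (List.replicate J 2 ++ (y :: t))) N / (l : ℝ) ^ (2 * J * (A + 1) + 9 + e) ≤
      |∑ u ∈ U, c u * H (q ++ [b + 1] ++ (nat u ++ (y :: t))) N| := by
  set x : ℝ := (l : ℝ) with hx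
  set ρ := wd (q ++ [b + 1]) with hρdef
  have hx10 : (10 : ℝ) ≤ x := by rw [hx]; exact_mod_cast (by omega : 10 ≤ l)
  have hx1 : (1 : ℝ) ≤ x := by linarith
  have hx0 : (0 : ℝ) < x := by linarith
  have hlsq : l + l ≤ l ^ 2 := by nlinarith [(by omega : 2 ≤ l)]
  have hρ0 : 0 < ρ := lt_of_lt_of_le (by positivity) hρ
  have hpow : ∀ {a b : ℕ}, a ≤ b → x ^ a ≤ x ^ b := fun h => pow_le_pow_right₀ hx1 h
  -- the middle part
  have hdl : dl l j0 ^ A ≤ x ^ (2 * J * A) := by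
    have h1 := dl_le l j0
    have h2 : ((l : ℝ) + j0) ≤ x ^ 2 := by
      rw [hx]
      exact_mod_cast (by omega : l + j0 ≤ l ^ 2)
    have h3 : ((l : ℝ) + j0) ^ j0 ≤ (x ^ 2) ^ j0 := pow_le_pow_left₀ (by positivity) h2 _
    have h4 : (x ^ 2) ^ j0 ≤ x ^ (2 * J) := by
      rw [← pow_mul]
      exact hpow (by omega)
    calc dl l j0 ^ A ≤ (x ^ (2 * J)) ^ A := pow_le_pow_left₀ (dl_pos _ _).le (h1.trans (h3.trans h4)) _
      _ = x ^ (2 * J * A) := by rw [← pow_mul]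
  set v := |EE U c l (l + j0)| with hv
  have hv0 : 0 ≤ v := abs_nonneg _
  have hlow : 1 ≤ v * x ^ (2 * J * A + e) := by
    have h1 : v * dl l j0 ^ A * x ^ e ≤ v * x ^ (2 * J * A) * x ^ e :=
      mul_le_mul_of_nonneg_right (mul_le_mul_of_nonneg_left hdl hv0) (by positivity)
    calc (1 : ℝ) ≤ v * x ^ (2 * J * A) * x ^ e := hEE.trans h1
      _ = _ := by rw [pow_add]; ring
  -- the conditions
  have hr1 : ∀ K : ℕ, K + l ≤ l ^ 2 → 2 * ((K : ℝ) + l) * (1 + l) ≤ ρ := by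
    intro K hK
    have h1 : (K : ℝ) + l ≤ x ^ 2 := by rw [hx]; exact_mod_cast hK
    have h2 : (1 : ℝ) + l ≤ x ^ 2 := by rw [hx]; exact_mod_cast (by omega : 1 + l ≤ l ^ 2)
    calc 2 * ((K : ℝ) + l) * (1 + l) ≤ x * x ^ 2 * x ^ 2 := by
          refine mul_le_mul (mul_le_mul (by linarith) h1 (by positivity) hx0.le) h2 (by positivity) (by positivity)
      _ = x ^ 5 := by ring
      _ ≤ x ^ (2 * J * (A + 1) + 9 + e) := hpow (by omega)
      _ ≤ ρ := hρ
  have hn : ∀ j : ℕ, j ≤ J → 2 * (((l + j : ℕ) : ℝ) + 1) ≤ x ^ 3 := by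
    intro j hj
    have h1 : (((l + j : ℕ) : ℝ) + 1) ≤ x ^ 2 := by rw [hx]; exact_mod_cast (by omega : l + j + 1 ≤ l ^ 2)
    calc 2 * (((l + j : ℕ) : ℝ) + 1) ≤ x * x ^ 2 :=
          mul_le_mul (by linarith) h1 (by positivity) hx0.le
      _ = x ^ 3 := by ring
  have hch : ∀ j K : ℕ, j ≤ J → l + j + 1 + K ≤ l ^ 2 →
      (Nat.choose (l + j + 1 + K) (l + K) : ℝ) ≤ x ^ (2 * J + 2) := by
    intro j K hj hK
    refine (choose_bound l j K (l ^ 2) hK).trans ?_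
    push_cast
    rw [← pow_mul]
    exact hpow (by omega)
  have hE1 : (∑ u ∈ U, |c u|) * (2 * (((l + j0 : ℕ) : ℝ) + 1) / ρ) *
      (Nat.choose (l + j0 + 1 + R) (l + R) : ℝ) ≤ v / 2 := by
    have h1 := hn j0 hJ
    have h2 := hch j0 R hJ (by omega)
    have hS : 0 ≤ ∑ u ∈ U, |c u| := Finset.sum_nonneg fun u _ => abs_nonneg _
    have h3 : (∑ u ∈ U, |c u|) * (2 * (((l + j0 : ℕ) : ℝ) + 1) / ρ) *
        (Nat.choose (l + j0 + 1 + R) (l + R) : ℝ) ≤ x ^ 2 * (x ^ 3 / ρ) * x ^ (2 * J + 2) := by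
      refine mul_le_mul (mul_le_mul hC ?_ (by positivity) (by positivity)) h2 (by positivity) (by positivity)
      exact div_le_div_of_nonneg_right h1 hρ0.le
    refine h3.trans ?_
    have h4 : x ^ 2 * (x ^ 3 / ρ) * x ^ (2 * J + 2) = x ^ (2 * J + 7) / ρ := by ring
    rw [h4, div_le_iff₀ hρ0]
    have h5 : x ^ (2 * J + 7) * x ≤ v * x ^ (2 * J * (A + 1) + 9 + e) / 1 := by
      have h6 : x ^ (2 * J + 7) * x * 1 ≤ x ^ (2 * J + 7) * x * (v * x ^ (2 * J * A + e)) :=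
        mul_le_mul_of_nonneg_left hlow (by positivity)
      have h7 : x ^ (2 * J + 7) * x * (v * x ^ (2 * J * A + e)) = v * x ^ (2 * J * (A + 1) + 8 + e) := by ring
      rw [h7, mul_one] at h6
      rw [div_one]
      exact h6.trans (mul_le_mul_of_nonneg_left (hpow (by omega)) hv0)
    have h8 : v * x ^ (2 * J * (A + 1) + 9 + e) / 1 ≤ v * ρ := by
      rw [div_one]
      exact mul_le_mul_of_nonneg_left hρ hv0
    have h9 : x ^ (2 * J + 7) * 2 ≤ x ^ (2 * J + 7) * x :=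
      mul_le_mul_of_nonneg_left (by linarith) (by positivity)
    linarith [h9.trans (h5.trans h8)]
  have hE2 : 2 * (((l + J : ℕ) : ℝ) + 1) / ρ * (Nat.choose (l + J + 1 + J) (l + J) : ℝ) ≤ 1 := by
    have h1 := hn J le_rfl
    have h2 := hch J J le_rfl (by omega)
    have h3 : 2 * (((l + J : ℕ) : ℝ) + 1) / ρ * (Nat.choose (l + J + 1 + J) (l + J) : ℝ) ≤
        x ^ 3 / ρ * x ^ (2 * J + 2) := by
      refine mul_le_mul ?_ h2 (by positivity) (by positivity)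
      exact div_le_div_of_nonneg_right h1 hρ0.le
    refine h3.trans ?_
    rw [div_mul_eq_mul_div, div_le_one hρ0]
    calc x ^ 3 * x ^ (2 * J + 2) = x ^ (2 * J + 5) := by ring
      _ ≤ x ^ (2 * J * (A + 1) + 9 + e) := hpow (by nlinarith)
      _ ≤ ρ := hρ
  have hA := core hR hz y t q b hq N l hl (by omega) hρ0 (hr1 R (by omega)) hE1
  have hB := upper J y t q b hq N l hl hN hρ0 (hr1 J (by omega)) hE2
  have hw := wt_anti q b hq N (l + j0) (l + J) (by omega) hN hρ0.le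
  have hHt : 0 < H (y :: t) l := by rw [← hl]; exact H_len_pos _
  rw [div_le_iff₀ (by positivity)]
  have h1 : H (q ++ [b + 1] ++ (List.replicate J 2 ++ (y :: t))) N ≤
      2 * H (y :: t) l * wt q (b + 1) N (l + j0) :=
    hB.trans (mul_le_mul_of_nonneg_left hw (by positivity))
  have hw0 := wt_nonneg q (b + 1) N (l + j0)
  have h2 : 2 * H (y :: t) l * wt q (b + 1) N (l + j0) ≤
      v / 2 * H (y :: t) l * wt q (b + 1) N (l + j0) * x ^ (2 * J * (A + 1) + 9 + e) := by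
    have h3 : 4 ≤ v * x ^ (2 * J * (A + 1) + 9 + e) := by
      have h4 : v * x ^ (2 * J * A + e) * x ≤ v * x ^ (2 * J * (A + 1) + 9 + e) := by
        have h5 : v * x ^ (2 * J * A + e) * x = v * x ^ (2 * J * A + e + 1) := by ring
        rw [h5]
        exact mul_le_mul_of_nonneg_left (hpow (by nlinarith)) hv0
      have h6 : 1 * x ≤ v * x ^ (2 * J * A + e) * x := mul_le_mul_of_nonneg_right hlow hx0.le
      linarith
    have h7 : 0 ≤ H (y :: t) l * wt q (b + 1) N (l + j0) := mul_nonneg hHt.le hw0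
    nlinarith [mul_le_mul_of_nonneg_right h3 h7]
  refine h1.trans (h2.trans ?_)
  exact mul_le_mul_of_nonneg_right hA (by positivity)

end Pool.Agent.U623.HC
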