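import Mathlib
import Pool.Agent.U623.HC.Core
import Pool.Agent.TH456.TM.Inst

/-!
# Common first and last parts: the two theorems
-/

set_option autoImplicit false

namespace Pool.Agent.U623.HC

open Filter Topology
open Pool.Agent.H447R2.MZ (H H_nil H_cons H_cons_zero H_cons_succ H_nonneg Adm val tendsto_H H_le_val)
open Pool.Agent.Q217.TT (ep nat)

/-- the first part `p` is admissible, its weight minus its depth is at least `(length t) ^ E`; the letters of `t` are
positive -/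
def Parts (E : ℕ) (p t : List ℕ) : Prop :=
  (∀ x ∈ p, 1 ≤ x) ∧ (∀ a q, p = a :: q → 2 ≤ a) ∧ (∀ x ∈ t, 1 ≤ x) ∧ t.length ^ E + p.length ≤ p.sum

lemma adm_parts {E : ℕ} {p t : List ℕ} (h : Parts E p t) (hp : p ≠ []) (v : List ℕ) (hv : ∀ x ∈ v, 1 ≤ x) :
    Adm (p ++ (v ++ t)) := by
  obtain ⟨h1, h2, h3, _⟩ := h
  refine ⟨fun x hx => ?_, fun a s hs => ?_⟩
  · rcases List.mem_append.1 hx with h | h
    · exact h1 x h
    · rcases List.mem_append.1 h with h | h
      · exact hv x h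
      · exact h3 x h
  · cases p with
    | nil => exact absurd rfl hp
    | cons b q =>
      rw [List.cons_append] at hs
      rw [← (List.cons.inj hs).1]
      exact h2 b q rfl

lemma nat_pos (u : List ℕ+) : ∀ x ∈ nat u, 1 ≤ x := by
  intro x hx
  rw [nat, List.mem_map] at hx
  obtain ⟨y, _, rfl⟩ := hx
  exact y.pos

lemma H_pos_all (w : List ℕ) (N : ℕ) (h : w.length ≤ N) : 0 < H w N :=
  lt_of_lt_of_le (H_len_pos w) (Pool.Agent.H447R2.MZ.H_mono w h)

/-- the limit -/
lemma limit {U : Finset (List ℕ+)} {c : List ℕ+ → ℝ} {j0 R J A e : ℕ} (he : 1 ≤ e) (hR : ∀ u ∈ U, (nat u).length ≤ R)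
    (hJ : j0 ≤ J) (hz : ∀ j < j0, ∀ k, EE U c k (k + j) = 0) {p t : List ℕ}
    (h : Parts (2 * J * (A + 1) + 9 + e) p t) (hl1 : 2 * J + R + 10 ≤ t.length)
    (hC : ∑ u ∈ U, |c u| ≤ (t.length : ℝ) ^ 2)
    (hEE : 1 ≤ |EE U c t.length (t.length + j0)| * dl t.length j0 ^ A * (t.length : ℝ) ^ e) :
    0 < val (p ++ (List.replicate J 2 ++ t)) ∧
    val (p ++ (List.replicate J 2 ++ t)) / (t.length : ℝ) ^ (2 * J * (A + 1) + 9 + e) ≤
      |∑ u ∈ U, c u * val (p ++ (nat u ++ t))| := by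
  have ht : t ≠ [] := by
    rintro rfl
    simp at hl1
  have hp : p ≠ [] := by
    rintro rfl
    have := h.2.2.2
    rw [List.length_nil, List.sum_nil, add_zero] at this
    have h2 : 0 < t.length ^ (2 * J * (A + 1) + 9 + e) := by
      have : 0 < t.length := by omega
      positivity
    omega
  have hadm := adm_parts h hp
  have h2 : ∀ x ∈ List.replicate J 2, 1 ≤ x := by
    intro x hx
    rw [(List.mem_replicate.1 hx).2]
    norm_num
  constructor
  · exact lt_of_lt_of_le (H_pos_all _ _ le_rfl) (H_le_val _ (hadm _ h2) _)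
  obtain ⟨y, t', rfl⟩ : ∃ y t', t = y :: t' := by
    cases t with
    | nil => exact absurd rfl ht
    | cons y t' => exact ⟨y, t', rfl⟩
  obtain ⟨q, s, rfl⟩ : ∃ q s, p = q ++ [s] := by
    rcases List.eq_nil_or_concat p with rfl | ⟨q, s, rfl⟩
    · exact absurd rfl hp
    · exact ⟨q, s, List.concat_eq_append⟩
  obtain ⟨b, rfl⟩ : ∃ b, s = b + 1 := ⟨s - 1, by have := h.1 s (by simp); omega⟩
  have hq : ∀ x ∈ q, 1 ≤ x := fun x hx => h.1 x (by simp [hx])
  have hρ : (((y :: t').length : ℕ) : ℝ) ^ (2 * J * (A + 1) + 9 + e) ≤ wd (q ++ [b + 1]) := by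
    have h3 := h.2.2.2
    rw [wd]
    have h4 : (((y :: t').length ^ (2 * J * (A + 1) + 9 + e) + (q ++ [b + 1]).length : ℕ) : ℝ) ≤
        (((q ++ [b + 1]).sum : ℕ) : ℝ) := by exact_mod_cast h3
    push_cast [Nat.cast_add] at h4 ⊢
    linarith
  have htend : Tendsto (fun N => |∑ u ∈ U, c u * H (q ++ [b + 1] ++ (nat u ++ (y :: t'))) N|) atTop
      (𝓝 |∑ u ∈ U, c u * val (q ++ [b + 1] ++ (nat u ++ (y :: t')))|) :=
    (tendsto_finsetSum _ fun u _ => (tendsto_H _ (hadm _ (nat_pos u))).const_mul _).abs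
  have htend2 : Tendsto (fun N => H (q ++ [b + 1] ++ (List.replicate J 2 ++ (y :: t'))) N /
      (((y :: t').length : ℕ) : ℝ) ^ (2 * J * (A + 1) + 9 + e)) atTop
      (𝓝 (val (q ++ [b + 1] ++ (List.replicate J 2 ++ (y :: t'))) /
        (((y :: t').length : ℕ) : ℝ) ^ (2 * J * (A + 1) + 9 + e))) :=
    (tendsto_H _ (hadm _ h2)).div_const _
  refine le_of_tendsto_of_tendsto htend2 htend ?_
  filter_upwards [eventually_ge_atTop ((y :: t').length + J + 1)] with N hN
  exact total he hR hJ hz y t' q b hq N _ rfl hl1 hN hC hEE hρ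

/-- the order of vanishing -/
lemma order (U : Finset (List ℕ+)) : ∃ J : ℕ, ∀ c : List ℕ+ → ℝ, (∃ u ∈ U, c u ≠ 0) →
    ∃ j0 ≤ J, (∀ j < j0, ∀ k, EE U c k (k + j) = 0) ∧ ∃ k, EE U c k (k + j0) ≠ 0 := by
  classical
  obtain ⟨M, hM⟩ := indep_real U
  refine ⟨M, fun c hc => ?_⟩
  obtain ⟨n, hn, hne⟩ := hM c hc
  have hex : ∃ j, ∃ k, EE U c k (k + j) ≠ 0 := by
    refine ⟨n, 0, ?_⟩
    rw [EE, zero_add]
    simp only [ep_zero]
    exact hne
  refine ⟨Nat.find hex, ?_, ?_, Nat.find_spec hex⟩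
  · refine (Nat.find_min' hex ⟨0, ?_⟩).trans hn
    rw [EE, zero_add]
    simp only [ep_zero]
    exact hne
  · intro j hj k
    by_contra h
    exact Nat.find_min hex hj ⟨k, h⟩

/-- **Theorem**, common first and last parts. -/
theorem main (U : Finset (List ℕ+)) (d : ℕ) : ∃ J E : ℕ,
    (∀ c : List ℕ+ → ℝ, (∃ u ∈ U, c u ≠ 0) → ∃ n0 : ℕ, ∀ p t : List ℕ, Parts E p t → n0 ≤ t.length →
      0 < val (p ++ (List.replicate J 2 ++ t)) ∧
      val (p ++ (List.replicate J 2 ++ t)) / (t.length : ℝ) ^ E ≤ |∑ u ∈ U, c u * val (p ++ (nat u ++ t))|) ∧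
    (∃ κ : ℝ, 0 < κ ∧ ∀ p t : List ℕ, Parts E p t → ∀ c : List ℕ+ → Polynomial ℤ, (∃ u ∈ U, c u ≠ 0) →
      (∀ u ∈ U, (c u).natDegree ≤ d) → (∀ u ∈ U, ∀ i, |((c u).coeff i : ℝ)| ≤ κ * t.length) →
      0 < val (p ++ (List.replicate J 2 ++ t)) ∧
      val (p ++ (List.replicate J 2 ++ t)) / (t.length : ℝ) ^ E ≤
        |∑ u ∈ U, Polynomial.aeval Real.pi (c u) * val (p ++ (nat u ++ t))|) := by
  classical
  obtain ⟨J, hJ⟩ := order U
  obtain ⟨R, hR⟩ : ∃ R, ∀ u ∈ U, (nat u).length ≤ R :=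
    ⟨∑ u ∈ U, (nat u).length, fun u hu =>
      Finset.single_le_sum (f := fun u => (nat u).length) (fun _ _ => Nat.zero_le _) hu⟩
  obtain ⟨A, hA⟩ : ∃ A, ∀ u ∈ U, ∀ x ∈ nat u, x ≤ A :=
    ⟨∑ u ∈ U, (nat u).sum, fun u hu x hx => (List.le_sum_of_mem hx).trans
      (Finset.single_le_sum (f := fun u => (nat u).sum) (fun _ _ => Nat.zero_le _) hu)⟩
  have hP : ∀ u : List ℕ+, ∀ j : ℕ, ∃ P : Polynomial ℤ, u ∈ U → ∀ k : ℕ,
      ep (nat u) k (k + j) * dl k j ^ A = ((P.eval (k : ℤ) : ℤ) : ℝ) := by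
    intro u j
    by_cases hu : u ∈ U
    · obtain ⟨P, hP⟩ := poly_ep A (nat u) (hA u hu) j
      exact ⟨P, fun _ => hP⟩
    · exact ⟨0, fun h => absurd h hu⟩
  choose P hP using hP
  have hev : ∀ (c : List ℕ+ → ℝ) (j k : ℕ), EE U c k (k + j) * dl k j ^ A =
      ∑ u ∈ U, c u * (((P u j).eval (k : ℤ) : ℤ) : ℝ) := by
    intro c j k
    rw [EE, Finset.sum_mul]
    refine Finset.sum_congr rfl fun u hu => ?_
    rw [mul_assoc, hP u j hu k]
  obtain ⟨κ0, c0, hκ0, hc0, hmeas⟩ := Pool.Agent.TH456.TM.measT_pi d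
  -- degrees
  obtain ⟨G, hG⟩ : ∃ G : ℕ, ∀ u ∈ U, ∀ j ≤ J, (P u j).natDegree ≤ G := by
    refine ⟨∑ j ∈ Finset.range (J + 1), ∑ u ∈ U, (P u j).natDegree, fun u hu j hj => ?_⟩
    refine (Finset.single_le_sum (f := fun u => (P u j).natDegree) (fun _ _ => Nat.zero_le _) hu).trans ?_
    exact Finset.single_le_sum (f := fun j => ∑ u ∈ U, (P u j).natDegree) (fun _ _ => Nat.zero_le _)
      (Finset.mem_range.2 (by omega))
  obtain ⟨e, he⟩ : ∃ e : ℕ, e = ⌈κ0⌉₊ * (G + 2) + 1 := ⟨_, rfl⟩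
  have he1 : 1 ≤ e := by omega
  refine ⟨J, 2 * J * (A + 1) + 9 + e, ?_, ?_⟩
  · intro c hc
    obtain ⟨j0, hj0, hz, k1, hk1⟩ := hJ c hc
    set Q : Polynomial ℝ := ∑ u ∈ U, Polynomial.C (c u) * (P u j0).map (Int.castRingHom ℝ) with hQ
    have hQe : ∀ k : ℕ, Q.eval (k : ℝ) = EE U c k (k + j0) * dl k j0 ^ A := by
      intro k
      rw [hev, hQ, Polynomial.eval_finsetSum]
      refine Finset.sum_congr rfl fun u _ => ?_
      rw [Polynomial.eval_mul, Polynomial.eval_C]
      congr 1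
      have h1 := Polynomial.eval_intCast_map (Int.castRingHom ℝ) (P u j0) (k : ℤ)
      simpa using h1
    have hQ0 : Q ≠ 0 := by
      intro h
      have h1 := hQe k1
      rw [h, Polynomial.eval_zero] at h1
      exact (mul_ne_zero hk1 (pow_pos (dl_pos _ _) _).ne') h1.symm
    obtain ⟨k0, hk0⟩ := real_low Q hQ0
    obtain ⟨m0, hm0⟩ := exists_nat_ge (∑ u ∈ U, |c u|)
    refine ⟨max (max k0 m0) (2 * J + R + 10), fun p t hpt hn => ?_⟩
    have hk : k0 ≤ t.length := (le_max_left _ _).trans ((le_max_left _ _).trans hn)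
    have hm : m0 ≤ t.length := (le_max_right _ _).trans ((le_max_left _ _).trans hn)
    have hl : 2 * J + R + 10 ≤ t.length := (le_max_right _ _).trans hn
    have hlr : (1 : ℝ) ≤ t.length := by exact_mod_cast (by omega : 1 ≤ t.length)
    refine limit he1 hR hj0 hz hpt hl ?_ ?_
    · have h1 : (m0 : ℝ) ≤ t.length := by exact_mod_cast hm
      nlinarith [hm0]
    · have h1 := hk0 t.length hk
      rw [hQe, abs_mul, abs_of_pos (pow_pos (dl_pos _ _) _), div_le_iff₀ (by linarith)] at h1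
      refine h1.trans (mul_le_mul_of_nonneg_left ?_ (mul_nonneg (abs_nonneg _) (pow_pos (dl_pos _ _) _).le))
      calc (t.length : ℝ) = (t.length : ℝ) ^ 1 := (pow_one _).symm
        _ ≤ _ := pow_le_pow_right₀ hlr he1
  · set B : ℝ := ∑ j ∈ Finset.range (J + 1), ∑ u ∈ U, ∑ i ∈ (P u j).support, |((P u j).coeff i : ℝ)| with hB
    have hB0 : 0 ≤ B := Finset.sum_nonneg fun j _ => Finset.sum_nonneg fun u _ =>
      Finset.sum_nonneg fun i _ => abs_nonneg _
    have hcoefA : ∀ j ≤ J, ∑ u ∈ U, ∑ i ∈ (P u j).support, |((P u j).coeff i : ℝ)| ≤ B := by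
      intro j hj
      exact Finset.single_le_sum
        (f := fun j => ∑ u ∈ U, ∑ i ∈ (P u j).support, |((P u j).coeff i : ℝ)|)
        (fun j _ => Finset.sum_nonneg fun u _ => Finset.sum_nonneg fun i _ => abs_nonneg _)
        (Finset.mem_range.2 (by omega))
    have hcoef : ∀ j ≤ J, ∀ i, ∑ u ∈ U, |((P u j).coeff i : ℝ)| ≤ B := by
      intro j hj i
      refine le_trans ?_ (hcoefA j hj)
      refine Finset.sum_le_sum fun u _ => ?_
      by_cases hi : i ∈ (P u j).support
      · exact Finset.single_le_sum (f := fun i => |((P u j).coeff i : ℝ)|) (fun _ _ => abs_nonneg _) hi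
      · rw [Polynomial.notMem_support_iff] at hi
        rw [hi]
        simp only [Int.cast_zero, abs_zero]
        exact Finset.sum_nonneg fun i _ => abs_nonneg _
    -- the values of the polynomials
    have hval : ∀ j ≤ J, ∀ l : ℕ, 1 ≤ l → ∑ u ∈ U, |(((P u j).eval (l : ℤ) : ℤ) : ℝ)| ≤ B * (l : ℝ) ^ G := by
      intro j hj l hl
      have hl1 : (1 : ℝ) ≤ l := by exact_mod_cast hl
      refine le_trans ?_ (mul_le_mul_of_nonneg_right (hcoefA j hj) (by positivity))
      rw [Finset.sum_mul]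
      refine Finset.sum_le_sum fun u hu => ?_
      rw [Polynomial.eval_eq_sum, Polynomial.sum, Int.cast_sum, Finset.sum_mul]
      refine (Finset.abs_sum_le_sum_abs _ _).trans (Finset.sum_le_sum fun i hi => ?_)
      push_cast
      rw [abs_mul, abs_of_nonneg (by positivity : (0 : ℝ) ≤ (l : ℝ) ^ i)]
      refine mul_le_mul_of_nonneg_left (pow_le_pow_right₀ hl1 ?_) (abs_nonneg _)
      exact (Polynomial.le_natDegree_of_mem_supp i hi).trans (hG u hu j hj)
    set W : ℝ := ∑ i ∈ Finset.range (d + 1), Real.pi ^ i with hW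
    have hW0 : 0 ≤ W := Finset.sum_nonneg fun i _ => by positivity
    set D : ℝ := (B + 1) * ((U.card : ℝ) + 1) * ((2 * J + R + 10 : ℕ) : ℝ) * (W + 1) * (1 / c0 + 1) with hD
    have hD0 : 0 < D := by rw [hD]; positivity
    have hX : (1 : ℝ) ≤ ((2 * J + R + 10 : ℕ) : ℝ) := by exact_mod_cast (by omega : 1 ≤ 2 * J + R + 10)
    have hU0 : (0 : ℝ) ≤ (U.card : ℝ) := Nat.cast_nonneg _
    have hc1 : 0 ≤ 1 / c0 := by positivity
    -- the factors
    have hf : ∀ a b : ℝ, 0 ≤ a → 1 ≤ b → a ≤ a * b := fun a b ha hb => le_mul_of_one_le_right ha hb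
    have hD1 : ((2 * J + R + 10 : ℕ) : ℝ) ≤ D := by
      have h1 : ((2 * J + R + 10 : ℕ) : ℝ) ≤ (B + 1) * ((U.card : ℝ) + 1) * ((2 * J + R + 10 : ℕ) : ℝ) :=
        le_mul_of_one_le_left (by positivity) (by nlinarith)
      exact h1.trans ((hf _ _ (by positivity) (by linarith)).trans (hf _ _ (by positivity) (by linarith)))
    have hD2 : B + 1 ≤ D :=
      (hf _ _ (by positivity) (by linarith)).trans ((hf _ _ (by positivity) hX).trans
        ((hf _ _ (by positivity) (by linarith)).trans (hf _ _ (by positivity) (by linarith))))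
    have hD3 : 1 / c0 ≤ D := by
      have h1 : (1 : ℝ) ≤ (B + 1) * ((U.card : ℝ) + 1) * ((2 * J + R + 10 : ℕ) : ℝ) * (W + 1) := by
        refine one_le_mul_of_one_le_of_one_le (one_le_mul_of_one_le_of_one_le
          (one_le_mul_of_one_le_of_one_le (by linarith) (by linarith)) hX) (by linarith)
      have h2 : 1 / c0 + 1 ≤ D := le_mul_of_one_le_left (by positivity) h1
      linarith
    have hD4 : (U.card : ℝ) * W ≤ D := by
      have h1 : (U.card : ℝ) * W ≤ ((U.card : ℝ) + 1) * (W + 1) :=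
        mul_le_mul (by linarith) (by linarith) hW0 (by positivity)
      have h2 : ((U.card : ℝ) + 1) * (W + 1) ≤
          ((U.card : ℝ) + 1) * (W + 1) * ((B + 1) * ((2 * J + R + 10 : ℕ) : ℝ) * (1 / c0 + 1)) :=
        hf _ _ (by positivity) (one_le_mul_of_one_le_of_one_le
          (one_le_mul_of_one_le_of_one_le (by linarith) hX) (by linarith))
      refine h1.trans (h2.trans (le_of_eq ?_))
      rw [hD]
      ring
    refine ⟨1 / D, by positivity, fun p t hpt c hc hcd hcb => ?_⟩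
    obtain ⟨u1, hu1, hcu1⟩ := hc
    obtain ⟨i1, hi1⟩ : ∃ i, (c u1).coeff i ≠ 0 := by
      by_contra h
      push Not at h
      exact hcu1 (Polynomial.ext h)
    have hDl : D ≤ t.length := by
      have h1 := hcb u1 hu1 i1
      have h2 : (1 : ℝ) ≤ |((c u1).coeff i1 : ℝ)| := by
        rw [← Int.cast_abs]
        exact_mod_cast Int.one_le_abs hi1
      have h3 : 1 ≤ 1 / D * t.length := h2.trans h1
      rwa [one_div_mul_eq_div, le_div_iff₀ hD0, one_mul] at h3
    have hl : (2 * J + R + 10 : ℕ) ≤ t.length := by exact_mod_cast hD1.trans hDl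
    have hlr : (1 : ℝ) ≤ t.length := by exact_mod_cast (by omega : 1 ≤ t.length)
    have hDx : ∀ x : ℝ, 0 ≤ x → x ≤ D → 1 / D * t.length * x ≤ t.length := by
      intro x hx0 hx
      calc 1 / D * t.length * x = t.length * (x / D) := by ring
        _ ≤ t.length * 1 := mul_le_mul_of_nonneg_left ((div_le_one hD0).2 hx) (by positivity)
        _ = t.length := mul_one _
    set cr : List ℕ+ → ℝ := fun u => Polynomial.aeval Real.pi (c u) with hcr
    have hcrs : ∀ u ∈ U, cr u = ∑ i ∈ Finset.range (d + 1), ((c u).coeff i : ℝ) * Real.pi ^ i := by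
      intro u hu
      rw [hcr]
      simp only
      rw [Polynomial.aeval_eq_sum_range' (Nat.lt_succ_of_le (hcd u hu))]
      refine Finset.sum_congr rfl fun i _ => ?_
      rw [zsmul_eq_mul]
    have hmeasR : ∀ S : Polynomial ℤ, S ≠ 0 → S.natDegree ≤ d → ∀ H : ℝ, 1 ≤ H → (∀ k, |(S.coeff k : ℝ)| ≤ H) →
        c0 ≤ H ^ κ0 * |Polynomial.aeval Real.pi S| := by
      intro S hS hSd H hH hSH
      have h1 := hmeas S hS hSd H hH hSH
      have h2 : Polynomial.aeval (Real.pi : ℂ) S = ((Polynomial.aeval Real.pi S : ℝ) : ℂ) :=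
        Polynomial.aeval_algebraMap_apply ℂ Real.pi S
      rwa [h2, Complex.norm_real, Real.norm_eq_abs] at h1
    have hne : cr u1 ≠ 0 := by
      intro h0
      have h1 := hmeasR (c u1) hcu1 (hcd u1 hu1) (max 1 (1 / D * t.length)) (le_max_left _ _)
        (fun k => (hcb u1 hu1 k).trans (le_max_right _ _))
      have h2 : Polynomial.aeval Real.pi (c u1) = 0 := h0
      rw [h2, abs_zero, mul_zero] at h1
      linarith
    obtain ⟨j0, hj0, hz, k1, hk1⟩ := hJ cr ⟨u1, hu1, hne⟩
    -- the polynomial in the number `π`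
    set S : ℕ → Polynomial ℤ := fun k => ∑ u ∈ U, c u * Polynomial.C ((P u j0).eval (k : ℤ)) with hS
    have hSe : ∀ k : ℕ, Polynomial.aeval Real.pi (S k) = EE U cr k (k + j0) * dl k j0 ^ A := by
      intro k
      rw [hev, hS]
      simp only
      rw [map_sum]
      refine Finset.sum_congr rfl fun u _ => ?_
      rw [map_mul, Polynomial.aeval_C]
      rfl
    set Q : ℕ → Polynomial ℤ := fun i => ∑ u ∈ U, Polynomial.C ((c u).coeff i) * P u j0 with hQ
    have hSc : ∀ k i : ℕ, (S k).coeff i = (Q i).eval (k : ℤ) := by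
      intro k i
      rw [hS, hQ]
      simp only
      rw [Polynomial.finsetSum_coeff, Polynomial.eval_finsetSum]
      refine Finset.sum_congr rfl fun u _ => ?_
      rw [Polynomial.coeff_mul_C, Polynomial.eval_mul, Polynomial.eval_C]
    obtain ⟨i0, hi0⟩ : ∃ i, Q i ≠ 0 := by
      by_contra h
      push Not at h
      have h1 : S k1 = 0 := by
        ext i
        rw [hSc, h i, Polynomial.eval_zero, Polynomial.coeff_zero]
      have h2 := hSe k1
      rw [h1, map_zero] at h2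
      exact (mul_ne_zero hk1 (pow_pos (dl_pos _ _) _).ne') h2.symm
    have hco : ∀ i, |(Q i0).coeff i| < (t.length : ℤ) := by
      intro i
      have h1 : (|(Q i0).coeff i| : ℝ) < t.length := by
        rw [hQ]
        simp only
        rw [Polynomial.finsetSum_coeff]
        push_cast
        have h2 : |∑ u ∈ U, (((Polynomial.C ((c u).coeff i0) * P u j0).coeff i : ℤ) : ℝ)| ≤
            1 / D * t.length * B := by
          refine (Finset.abs_sum_le_sum_abs _ _).trans ?_
          calc ∑ u ∈ U, |(((Polynomial.C ((c u).coeff i0) * P u j0).coeff i : ℤ) : ℝ)|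
              ≤ ∑ u ∈ U, 1 / D * t.length * |((P u j0).coeff i : ℝ)| := by
                refine Finset.sum_le_sum fun u hu => ?_
                rw [Polynomial.coeff_C_mul, Int.cast_mul, abs_mul]
                exact mul_le_mul_of_nonneg_right (hcb u hu i0) (abs_nonneg _)
            _ = 1 / D * t.length * ∑ u ∈ U, |((P u j0).coeff i : ℝ)| := by rw [Finset.mul_sum]
            _ ≤ _ := mul_le_mul_of_nonneg_left (hcoef j0 hj0 i) (by positivity)
        refine lt_of_le_of_lt h2 ?_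
        have h3 := hDx (B + 1) (by linarith) hD2
        have h4 : 1 / D * t.length * B < 1 / D * t.length * (B + 1) := by
          have : 0 < 1 / D * (t.length : ℝ) := by positivity
          nlinarith
        linarith
      exact_mod_cast h1
    have hQl := int_low' (Q i0) hi0 t.length (by omega) hco
    have hS0 : S t.length ≠ 0 := by
      intro h
      rw [← hSc, h, Polynomial.coeff_zero, Int.cast_zero, abs_zero] at hQl
      linarith
    have hSd : (S t.length).natDegree ≤ d := by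
      rw [Polynomial.natDegree_le_iff_coeff_eq_zero]
      intro i hi
      rw [hS]
      simp only
      rw [Polynomial.finsetSum_coeff]
      refine Finset.sum_eq_zero fun u hu => ?_
      rw [Polynomial.coeff_mul_C, Polynomial.coeff_eq_zero_of_natDegree_lt (lt_of_le_of_lt (hcd u hu) hi), zero_mul]
    have hSH : ∀ k, |((S t.length).coeff k : ℝ)| ≤ (t.length : ℝ) ^ (G + 1) := by
      intro i
      rw [hS]
      simp only
      rw [Polynomial.finsetSum_coeff]
      push_cast
      calc |∑ u ∈ U, (((c u * Polynomial.C ((P u j0).eval (t.length : ℤ))).coeff i : ℤ) : ℝ)|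
          ≤ ∑ u ∈ U, 1 / D * t.length * |(((P u j0).eval (t.length : ℤ) : ℤ) : ℝ)| := by
            refine (Finset.abs_sum_le_sum_abs _ _).trans (Finset.sum_le_sum fun u hu => ?_)
            rw [Polynomial.coeff_mul_C, Int.cast_mul, abs_mul]
            exact mul_le_mul_of_nonneg_right (hcb u hu i) (abs_nonneg _)
        _ = 1 / D * t.length * ∑ u ∈ U, |(((P u j0).eval (t.length : ℤ) : ℤ) : ℝ)| := by rw [Finset.mul_sum]
        _ ≤ 1 / D * t.length * (B * (t.length : ℝ) ^ G) :=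
            mul_le_mul_of_nonneg_left (hval j0 hj0 t.length (by omega)) (by positivity)
        _ = 1 / D * t.length * B * (t.length : ℝ) ^ G := by ring
        _ ≤ t.length * (t.length : ℝ) ^ G :=
            mul_le_mul_of_nonneg_right (hDx B hB0 (by linarith)) (by positivity)
        _ = (t.length : ℝ) ^ (G + 1) := by ring
    have hm1 := hmeasR (S t.length) hS0 hSd ((t.length : ℝ) ^ (G + 1)) (one_le_pow₀ hlr) hSH
    rw [hSe, abs_mul, abs_of_pos (pow_pos (dl_pos _ _) _)] at hm1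
    refine limit he1 hR hj0 hz hpt hl ?_ ?_
    · have h1 : ∑ u ∈ U, |cr u| ≤ t.length := by
        calc ∑ u ∈ U, |cr u| ≤ ∑ _u ∈ U, 1 / D * t.length * W := by
              refine Finset.sum_le_sum fun u hu => ?_
              rw [hcrs u hu, hW, Finset.mul_sum]
              refine (Finset.abs_sum_le_sum_abs _ _).trans (Finset.sum_le_sum fun i _ => ?_)
              rw [abs_mul, abs_of_nonneg (by positivity : (0 : ℝ) ≤ Real.pi ^ i)]
              exact mul_le_mul_of_nonneg_right (hcb u hu i) (by positivity)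
          _ = 1 / D * t.length * (U.card * W) := by rw [Finset.sum_const, nsmul_eq_mul]; ring
          _ ≤ t.length := hDx _ (by positivity) hD4
      nlinarith
    · have hx0 : (0 : ℝ) < t.length := by linarith
      have h1 : ((t.length : ℝ) ^ (G + 1)) ^ κ0 ≤ (t.length : ℝ) ^ (⌈κ0⌉₊ * (G + 2)) := by
        calc ((t.length : ℝ) ^ (G + 1)) ^ κ0 ≤ ((t.length : ℝ) ^ (G + 1)) ^ ((⌈κ0⌉₊ : ℕ) : ℝ) :=
              Real.rpow_le_rpow_of_exponent_le (one_le_pow₀ hlr) (Nat.le_ceil _)
          _ = (t.length : ℝ) ^ ((G + 1) * ⌈κ0⌉₊) := by rw [Real.rpow_natCast, ← pow_mul]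
          _ ≤ _ := pow_le_pow_right₀ hlr (by nlinarith)
      set v := |EE U cr t.length (t.length + j0)| * dl t.length j0 ^ A with hv
      have hv0 : 0 ≤ v := mul_nonneg (abs_nonneg _) (pow_pos (dl_pos _ _) _).le
      have h2 : c0 ≤ (t.length : ℝ) ^ (⌈κ0⌉₊ * (G + 2)) * v := hm1.trans (mul_le_mul_of_nonneg_right h1 hv0)
      have h3 : 1 ≤ (t.length : ℝ) * c0 := by
        have h4 := hD3.trans hDl
        rwa [div_le_iff₀ hc0] at h4
      calc (1 : ℝ) ≤ (t.length : ℝ) * c0 := h3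
        _ ≤ (t.length : ℝ) * ((t.length : ℝ) ^ (⌈κ0⌉₊ * (G + 2)) * v) := mul_le_mul_of_nonneg_left h2 hx0.le
        _ = v * (t.length : ℝ) ^ e := by rw [he, pow_succ]; ring

end Pool.Agent.U623.HC
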